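import Pool.Agent.V5helper51.MT.Stm

/-!
# Project MT, job SQ: the second moment
-/

set_option autoImplicit false

open Finset MeasureTheory

namespace Pool.Agent.V5helper37.MT

open Pool.Agent.V5helper51.MT

lemma e_add (x y : ℝ) : e (x + y) = e x * e y := by
  unfold e
  rw [← Complex.exp_add]
  congr 1
  push_cast
  ring

lemma norm_e (y : ℝ) : ‖e y‖ = 1 := by
  unfold e
  have : (2 * Real.pi * y * Complex.I : ℂ) = ((2 * Real.pi * y : ℝ) : ℂ) * Complex.I := by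
    push_cast
    ring
  rw [this, Complex.norm_exp_ofReal_mul_I]

lemma e_conj (y : ℝ) : (starRingEnd ℂ) (e y) = e (-y) := by
  unfold e
  rw [← Complex.exp_conj]
  congr 1
  have h1 : (2 * Real.pi * y * Complex.I : ℂ) = ((2 * Real.pi * y : ℝ) : ℂ) * Complex.I := by
    push_cast
    ring
  rw [h1, map_mul, Complex.conj_ofReal, Complex.conj_I]
  push_cast
  ring

lemma e_sum {ι : Type} (s : Finset ι) (f : ι → ℝ) : e (∑ i ∈ s, f i) = ∏ i ∈ s, e (f i) := by
  classical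
  induction s using Finset.induction_on with
  | empty => simp [e]
  | insert a s ha ih => rw [sum_insert ha, prod_insert ha, e_add, ih]

lemma continuous_e : Continuous e := by
  unfold e
  fun_prop

/-- one variable, trivial bound -/
lemma int_triv (A : ℕ) (θ : ℝ) : ‖∫ x in Set.Icc (-(A : ℝ)) A, e (θ * x)‖ ≤ 2 * A := by
  have hA : (0 : ℝ) ≤ A := Nat.cast_nonneg _
  have h := norm_setIntegral_le_of_norm_le_const (μ := volume) (s := Set.Icc (-(A : ℝ)) A)
    (f := fun x => e (θ * x)) (C := 1) (by simp) (fun x _ => (norm_e _).le)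
  refine h.trans (le_of_eq ?_)
  rw [Real.volume_real_Icc_of_le (by linarith)]
  ring

/-- one variable, oscillation -/
lemma int_osc (A : ℕ) (θ : ℝ) (hθ : θ ≠ 0) :
    ‖∫ x in Set.Icc (-(A : ℝ)) A, e (θ * x)‖ ≤ 1 / |θ| := by
  have hA : (0 : ℝ) ≤ A := Nat.cast_nonneg _
  rw [integral_Icc_eq_integral_Ioc, ← intervalIntegral.integral_of_le (by linarith)]
  have hc : (2 * Real.pi * θ * Complex.I : ℂ) ≠ 0 := by
    have hpi : (Real.pi : ℂ) ≠ 0 := by exact_mod_cast Real.pi_ne_zero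
    have hθc : (θ : ℂ) ≠ 0 := by exact_mod_cast hθ
    simp [hpi, hθc]
  have h1 : ∀ x : ℝ, e (θ * x) = Complex.exp (2 * Real.pi * θ * Complex.I * x) := by
    intro x
    unfold e
    congr 1
    push_cast
    ring
  simp only [h1]
  rw [integral_exp_mul_complex hc, norm_div]
  have h2 : ‖(2 * Real.pi * θ * Complex.I : ℂ)‖ = 2 * Real.pi * |θ| := by
    rw [norm_mul, Complex.norm_I, mul_one, norm_mul, norm_mul]
    simp [abs_of_pos Real.pi_pos]
  have h3 : ‖Complex.exp (2 * Real.pi * θ * Complex.I * ((A : ℝ) : ℂ)) -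
      Complex.exp (2 * Real.pi * θ * Complex.I * ((-(A : ℝ) : ℝ) : ℂ))‖ ≤ 2 := by
    rw [← h1, ← h1]
    refine (norm_sub_le _ _).trans ?_
    rw [norm_e, norm_e]
    norm_num
  rw [h2]
  have hθp : 0 < |θ| := abs_pos.2 hθ
  rw [div_le_div_iff₀ (by positivity) hθp]
  have hpi := Real.pi_gt_three
  nlinarith

/-- the integral over the cube of a linear exponential -/
lemma int_cube {n : ℕ} (A : ℕ) (θ : Fin n → ℝ) (c : ℝ) :
    ∫ α in Set.univ.pi (fun _ : Fin n => Set.Icc (-(A : ℝ)) A), e (c + ∑ j, θ j * α j) =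
      e c * ∏ j, ∫ x in Set.Icc (-(A : ℝ)) A, e (θ j * x) := by
  have h1 : ∀ α : Fin n → ℝ, e (c + ∑ j, θ j * α j) = e c * ∏ j, e (θ j * α j) := fun α => by
    rw [e_add, e_sum]
  simp only [h1]
  rw [integral_const_mul]
  congr 1
  rw [volume_pi, Measure.restrict_pi_pi]
  exact integral_fintype_prod_eq_prod (𝕜 := ℂ) (fun j x => e (θ j * x))

lemma cube_eq (k A : ℕ) : cube k A = Set.univ.pi (fun _ => Set.Icc (-(A : ℝ)) A) := by
  ext α
  simp only [cube, Set.mem_setOf_eq, Set.mem_pi, Set.mem_univ, true_imp_iff, Set.mem_Icc, abs_le]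

/-- the diagonal terms -/
lemma pair_triv (k q ρ A : ℕ) (ω t t' : ℝ) :
    ‖∫ α in cube k A, e (ω * G k q ρ α t - ω * G k q ρ α t')‖ ≤ (2 * (A : ℝ)) ^ (k - 1) := by
  have h1 : ∀ α : Fin (k - 1) → ℝ, ω * G k q ρ α t - ω * G k q ρ α t' =
      (ω * (((q * t + ρ) ^ k - ρ ^ k) / q) - ω * (((q * t' + ρ) ^ k - ρ ^ k) / q)) +
      ∑ j : Fin (k - 1), (ω * ((q * t + ρ) ^ ((j : ℕ) + 1) - (q * t' + ρ) ^ ((j : ℕ) + 1))) * α j := by
    intro α
    have h2 : ∑ j : Fin (k - 1), (ω * ((q * t + ρ) ^ ((j : ℕ) + 1) -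
        (q * t' + ρ) ^ ((j : ℕ) + 1))) * α j =
        ω * (∑ j : Fin (k - 1), α j * (q * t + ρ) ^ ((j : ℕ) + 1)) -
        ω * (∑ j : Fin (k - 1), α j * (q * t' + ρ) ^ ((j : ℕ) + 1)) := by
      rw [mul_sum, mul_sum, ← sum_sub_distrib]
      apply sum_congr rfl
      intro j _
      ring
    rw [h2]
    unfold G g
    ring
  simp only [h1]
  rw [cube_eq, int_cube, norm_mul, norm_e, one_mul, norm_prod]
  refine (prod_le_prod (fun j _ => norm_nonneg _) fun j _ => int_triv A _).trans (le_of_eq ?_)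
  rw [prod_const, card_univ, Fintype.card_fin]

/-- the other terms -/
lemma pair_osc (k q ρ A : ℕ) (hk : 2 ≤ k) (hq : 1 ≤ q) (ω t t' : ℝ) (hω : ω ≠ 0) (ht : t ≠ t') :
    ‖∫ α in cube k A, e (ω * G k q ρ α t - ω * G k q ρ α t')‖ ≤
      (2 * (A : ℝ)) ^ (k - 2) * (1 / (|ω| * |t - t'|)) := by
  have hqr : (1 : ℝ) ≤ q := by exact_mod_cast hq
  have h1 : ∀ α : Fin (k - 1) → ℝ, ω * G k q ρ α t - ω * G k q ρ α t' =
      (ω * (((q * t + ρ) ^ k - ρ ^ k) / q) - ω * (((q * t' + ρ) ^ k - ρ ^ k) / q)) +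
      ∑ j : Fin (k - 1), (ω * ((q * t + ρ) ^ ((j : ℕ) + 1) - (q * t' + ρ) ^ ((j : ℕ) + 1))) * α j := by
    intro α
    have h2 : ∑ j : Fin (k - 1), (ω * ((q * t + ρ) ^ ((j : ℕ) + 1) -
        (q * t' + ρ) ^ ((j : ℕ) + 1))) * α j =
        ω * (∑ j : Fin (k - 1), α j * (q * t + ρ) ^ ((j : ℕ) + 1)) -
        ω * (∑ j : Fin (k - 1), α j * (q * t' + ρ) ^ ((j : ℕ) + 1)) := by
      rw [mul_sum, mul_sum, ← sum_sub_distrib]
      apply sum_congr rfl
      intro j _
      ring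
    rw [h2]
    unfold G g
    ring
  simp only [h1]
  rw [cube_eq, int_cube, norm_mul, norm_e, one_mul, norm_prod]
  set j₀ : Fin (k - 1) := ⟨0, by omega⟩ with hj₀
  rw [← prod_erase_mul _ _ (mem_univ j₀)]
  have hpos : 0 < |ω| * |t - t'| := mul_pos (abs_pos.2 hω) (abs_pos.2 (sub_ne_zero.2 ht))
  apply mul_le_mul
  · refine (prod_le_prod (fun j _ => norm_nonneg _) fun j _ => int_triv A _).trans (le_of_eq ?_)
    rw [prod_const, card_erase_of_mem (mem_univ _), card_univ, Fintype.card_fin]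
    congr 1
  · have hθ : ω * ((q * t + ρ) ^ ((j₀ : ℕ) + 1) - (q * t' + ρ) ^ ((j₀ : ℕ) + 1)) =
        ω * (q * (t - t')) := by
      rw [hj₀]
      simp only [zero_add, pow_one]
      ring
    rw [hθ]
    have hne : ω * (q * (t - t')) ≠ 0 :=
      mul_ne_zero hω (mul_ne_zero (by linarith) (sub_ne_zero.2 ht))
    refine (int_osc A _ hne).trans ?_
    rw [abs_mul, abs_mul, abs_of_nonneg (by linarith : (0 : ℝ) ≤ q)]
    apply one_div_le_one_div_of_le hpos
    have h3 : 0 < |t - t'| := abs_pos.2 (sub_ne_zero.2 ht)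
    have h4 : |t - t'| ≤ q * |t - t'| := by nlinarith
    exact mul_le_mul_of_nonneg_left h4 (abs_nonneg _)
  · exact norm_nonneg _
  · positivity

/-- the weights -/
noncomputable def wt (z z' : ℕ) : ℝ := if z = z' then 0 else 1 / |(z : ℝ) - z'|

lemma wt_comm (z z' : ℕ) : wt z z' = wt z' z := by
  unfold wt
  rw [abs_sub_comm]
  by_cases h : z = z'
  · simp [h]
  · rw [if_neg h, if_neg (fun h' => h h'.symm)]

lemma sum_wt (n : ℕ) : ∑ z ∈ range n, wt z n = (harmonic n : ℝ) := by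
  unfold harmonic
  push_cast
  rw [← sum_range_reflect]
  apply sum_congr rfl
  intro j hj
  rw [mem_range] at hj
  unfold wt
  rw [if_neg (by omega)]
  have h1 : ((n - 1 - j : ℕ) : ℝ) = (n : ℝ) - 1 - j := by
    rw [Nat.cast_sub (by omega), Nat.cast_sub (by omega)]
    push_cast
    ring
  rw [h1, abs_of_nonpos (by
    have : (0 : ℝ) ≤ j := Nat.cast_nonneg _
    linarith), one_div]
  congr 1
  ring

lemma sum_wt2 (L : ℕ) : ∑ z ∈ range L, ∑ z' ∈ range L, wt z z' ≤ 2 * L * (1 + Real.log L) := by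
  have h1 : ∀ n : ℕ, ∑ z ∈ range n, ∑ z' ∈ range n, wt z z' = 2 * ∑ m ∈ range n, (harmonic m : ℝ) := by
    intro n
    induction n with
    | zero => simp
    | succ n ih =>
      rw [sum_range_succ, sum_range_succ (f := fun z' => wt n z')]
      have h2 : ∑ z ∈ range n, ∑ z' ∈ range (n + 1), wt z z' =
          ∑ z ∈ range n, ∑ z' ∈ range n, wt z z' + ∑ z ∈ range n, wt z n := by
        rw [← sum_add_distrib]
        apply sum_congr rfl
        intro z _
        rw [sum_range_succ]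
      have h3 : ∑ z' ∈ range n, wt n z' = ∑ z' ∈ range n, wt z' n :=
        sum_congr rfl fun z' _ => wt_comm _ _
      have h4 : wt n n = 0 := by simp [wt]
      rw [h2, ih, h3, h4, sum_wt, sum_range_succ (f := fun m => (harmonic m : ℝ))]
      ring
  rw [h1]
  have h5 : ∀ m ∈ range L, (harmonic m : ℝ) ≤ 1 + Real.log L := by
    intro m hm
    rw [mem_range] at hm
    rcases Nat.eq_zero_or_pos m with h0 | h0
    · subst h0
      simp only [harmonic_zero, Rat.cast_zero]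
      have : 0 ≤ Real.log L := Real.log_natCast_nonneg L
      linarith
    · refine (harmonic_le_one_add_log m).trans ?_
      have h6 : (0 : ℝ) < m := by exact_mod_cast h0
      have h7 : (m : ℝ) ≤ L := by exact_mod_cast hm.le
      have := Real.log_le_log h6 h7
      linarith
  have h6 := sum_le_sum h5
  rw [sum_const, card_range, nsmul_eq_mul] at h6
  linarith

/-- **SQ** -/
theorem t_SQ : S_SQ := by
  intro k q ρ A hk hq hA
  refine ⟨(2 * (A : ℝ)) ^ (k - 1) + 2 * (2 * (A : ℝ)) ^ (k - 2), by positivity, ?_⟩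
  intro u L hL ω hω
  have hω0 : 0 < |ω| := abs_pos.2 hω
  have hLr : (1 : ℝ) ≤ L := by exact_mod_cast hL
  have hlog : 0 ≤ Real.log L := Real.log_nonneg hLr
  -- the square
  have hsq : ∀ α : Fin (k - 1) → ℝ,
      ((‖∑ z ∈ range L, e (ω * G k q ρ α ((u + z : ℕ) : ℝ))‖ ^ 2 : ℝ) : ℂ) =
        ∑ z ∈ range L, ∑ z' ∈ range L,
          e (ω * G k q ρ α ((u + z : ℕ) : ℝ) - ω * G k q ρ α ((u + z' : ℕ) : ℝ)) := by
    intro α
    rw [Complex.ofReal_pow, ← Complex.mul_conj', map_sum, sum_mul_sum]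
    apply sum_congr rfl
    intro z _
    apply sum_congr rfl
    intro z' _
    rw [e_conj, sub_eq_add_neg, e_add]
  have hcube : MeasurableSet (cube k A) := by
    rw [cube_eq]
    exact MeasurableSet.univ_pi fun _ => measurableSet_Icc
  have hfin : volume (cube k A) ≠ ⊤ := by
    rw [cube_eq]
    exact ((isCompact_univ_pi fun _ => isCompact_Icc).measure_lt_top).ne
  have hcont : ∀ t t' : ℝ, Continuous fun α : Fin (k - 1) → ℝ =>
      e (ω * G k q ρ α t - ω * G k q ρ α t') := by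
    intro t t'
    have := continuous_e
    unfold G g
    fun_prop
  have hint : ∀ t t' : ℝ, Integrable (fun α : Fin (k - 1) → ℝ =>
      e (ω * G k q ρ α t - ω * G k q ρ α t')) (volume.restrict (cube k A)) := by
    intro t t'
    haveI : IsFiniteMeasure (volume.restrict (cube k A)) := ⟨by
      rw [Measure.restrict_apply_univ]
      exact lt_top_iff_ne_top.2 hfin⟩
    exact Integrable.of_bound (hcont t t').aestronglyMeasurable 1
      (Filter.Eventually.of_forall fun α => (norm_e _).le)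
  have hI : ((∫ α in cube k A, ‖∑ z ∈ range L, e (ω * G k q ρ α ((u + z : ℕ) : ℝ))‖ ^ 2 : ℝ) : ℂ) =
      ∑ z ∈ range L, ∑ z' ∈ range L, ∫ α in cube k A,
        e (ω * G k q ρ α ((u + z : ℕ) : ℝ) - ω * G k q ρ α ((u + z' : ℕ) : ℝ)) := by
    refine (integral_complex_ofReal (μ := volume.restrict (cube k A))
      (f := fun α => ‖∑ z ∈ range L, e (ω * G k q ρ α ((u + z : ℕ) : ℝ))‖ ^ 2)).symm.trans ?_
    have h1 : ∫ α in cube k A,
        (((‖∑ z ∈ range L, e (ω * G k q ρ α ((u + z : ℕ) : ℝ))‖ ^ 2 : ℝ)) : ℂ) =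
        ∫ α in cube k A, ∑ z ∈ range L, ∑ z' ∈ range L,
          e (ω * G k q ρ α ((u + z : ℕ) : ℝ) - ω * G k q ρ α ((u + z' : ℕ) : ℝ)) :=
      integral_congr_ae (Filter.Eventually.of_forall hsq)
    refine h1.trans ?_
    rw [integral_finset_sum _ fun z _ => integrable_finset_sum _ fun z' _ => hint _ _]
    apply sum_congr rfl
    intro z _
    rw [integral_finset_sum _ fun z' _ => hint _ _]
  have hterm : ∀ z z' : ℕ, ‖∫ α in cube k A,
      e (ω * G k q ρ α ((u + z : ℕ) : ℝ) - ω * G k q ρ α ((u + z' : ℕ) : ℝ))‖ ≤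
      (if z = z' then (2 * (A : ℝ)) ^ (k - 1) else 0) +
        (2 * (A : ℝ)) ^ (k - 2) * (1 / |ω|) * wt z z' := by
    intro z z'
    by_cases h : z = z'
    · subst h
      rw [if_pos rfl]
      have h1 : wt z z = 0 := by simp [wt]
      rw [h1, mul_zero, add_zero]
      exact pair_triv k q ρ A ω _ _
    · rw [if_neg h, zero_add]
      have hne : ((u + z : ℕ) : ℝ) ≠ ((u + z' : ℕ) : ℝ) := by
        intro h2
        have h3 : u + z = u + z' := by exact_mod_cast h2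
        omega
      refine (pair_osc k q ρ A hk hq ω _ _ hω hne).trans (le_of_eq ?_)
      unfold wt
      rw [if_neg h]
      have h4 : ((u + z : ℕ) : ℝ) - ((u + z' : ℕ) : ℝ) = (z : ℝ) - z' := by
        push_cast
        ring
      rw [h4, mul_assoc, div_mul_div_comm, one_mul]
  have hnn : 0 ≤ ∫ α in cube k A, ‖∑ z ∈ range L, e (ω * G k q ρ α ((u + z : ℕ) : ℝ))‖ ^ 2 :=
    integral_nonneg fun α => by positivity
  have hmain : (∫ α in cube k A, ‖∑ z ∈ range L, e (ω * G k q ρ α ((u + z : ℕ) : ℝ))‖ ^ 2) ≤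
      ∑ z ∈ range L, ∑ z' ∈ range L, ((if z = z' then (2 * (A : ℝ)) ^ (k - 1) else 0) +
        (2 * (A : ℝ)) ^ (k - 2) * (1 / |ω|) * wt z z') := by
    calc (∫ α in cube k A, ‖∑ z ∈ range L, e (ω * G k q ρ α ((u + z : ℕ) : ℝ))‖ ^ 2) =
        ‖((∫ α in cube k A, ‖∑ z ∈ range L, e (ω * G k q ρ α ((u + z : ℕ) : ℝ))‖ ^ 2 : ℝ) : ℂ)‖ := by
          rw [Complex.norm_real, Real.norm_of_nonneg hnn]
      _ ≤ _ := by
          rw [hI]
          refine (norm_sum_le _ _).trans (sum_le_sum fun z _ => ?_)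
          exact (norm_sum_le _ _).trans (sum_le_sum fun z' _ => hterm z z')
  refine hmain.trans ?_
  have hs : ∑ z ∈ range L, ∑ z' ∈ range L, ((if z = z' then (2 * (A : ℝ)) ^ (k - 1) else 0) +
        (2 * (A : ℝ)) ^ (k - 2) * (1 / |ω|) * wt z z') =
      L * (2 * (A : ℝ)) ^ (k - 1) + (2 * (A : ℝ)) ^ (k - 2) * (1 / |ω|) *
        ∑ z ∈ range L, ∑ z' ∈ range L, wt z z' := by
    have h1 : ∀ z ∈ range L, ∑ z' ∈ range L, ((if z = z' then (2 * (A : ℝ)) ^ (k - 1) else 0) +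
        (2 * (A : ℝ)) ^ (k - 2) * (1 / |ω|) * wt z z') = (2 * (A : ℝ)) ^ (k - 1) +
        (2 * (A : ℝ)) ^ (k - 2) * (1 / |ω|) * ∑ z' ∈ range L, wt z z' := by
      intro z hz
      rw [sum_add_distrib, sum_ite_eq, if_pos hz, mul_sum]
    rw [sum_congr rfl h1, sum_add_distrib, sum_const, card_range, nsmul_eq_mul, mul_sum]
  rw [hs]
  have h2 := sum_wt2 L
  have h3 : (2 * (A : ℝ)) ^ (k - 2) * (1 / |ω|) * ∑ z ∈ range L, ∑ z' ∈ range L, wt z z' ≤
      (2 * (A : ℝ)) ^ (k - 2) * (1 / |ω|) * (2 * L * (1 + Real.log L)) :=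
    mul_le_mul_of_nonneg_left h2 (by positivity)
  have h4 : 0 ≤ (2 * (A : ℝ)) ^ (k - 1) * L * ((1 + Real.log L) / |ω|) := by positivity
  have h5 : 0 ≤ 2 * (2 * (A : ℝ)) ^ (k - 2) * L := by positivity
  have h6 : (2 * (A : ℝ)) ^ (k - 2) * (1 / |ω|) * (2 * L * (1 + Real.log L)) =
      2 * (2 * (A : ℝ)) ^ (k - 2) * L * ((1 + Real.log L) / |ω|) := by ring
  calc L * (2 * (A : ℝ)) ^ (k - 1) + (2 * (A : ℝ)) ^ (k - 2) * (1 / |ω|) *
        ∑ z ∈ range L, ∑ z' ∈ range L, wt z z' ≤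
        L * (2 * (A : ℝ)) ^ (k - 1) + 2 * (2 * (A : ℝ)) ^ (k - 2) * L *
          ((1 + Real.log L) / |ω|) := by linarith
    _ ≤ ((2 * (A : ℝ)) ^ (k - 1) + 2 * (2 * (A : ℝ)) ^ (k - 2)) * L *
          (1 + (1 + Real.log L) / |ω|) := by
        have h7 : ((2 * (A : ℝ)) ^ (k - 1) + 2 * (2 * (A : ℝ)) ^ (k - 2)) * L *
          (1 + (1 + Real.log L) / |ω|) = L * (2 * (A : ℝ)) ^ (k - 1) +
          2 * (2 * (A : ℝ)) ^ (k - 2) * L * ((1 + Real.log L) / |ω|) +
          (2 * (A : ℝ)) ^ (k - 1) * L * ((1 + Real.log L) / |ω|) +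
          2 * (2 * (A : ℝ)) ^ (k - 2) * L := by ring
        rw [h7]
        linarith

end Pool.Agent.V5helper37.MT
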